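import Mathlib
import Pool.Agent.Q102.TradeExt
import Pool.Agent.Q102.TradeVec

/-!
MP_0d0d23_co, Q1: for all `r ≥ 2` and `m ≥ 2` there is a complete simple game with exactly `r`
shift-minimal winning types that is `m`-invariant trade robust but not `(m + 1)`-invariant trade
robust.
-/

namespace Pool.Agent.Results.MP_0d0d23_co.AllRows

open Finset Classical Pool.Agent.Q102.Trade

/-- class sizes of the base game -/
def bn (m : ℕ) : Fin 3 → ℕ := ![2, m + 1, m + 1]

/-- first row -/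
def ra : Fin 3 → ℕ := ![2, 0, 1]

/-- second row -/
def rb (m : ℕ) : Fin 3 → ℕ := ![1, 1, m]

/-- rows of the base game -/
noncomputable def rows (m : ℕ) : Finset (Fin 3 → ℕ) := {ra, rb m}

theorem psum0 (c : Fin 3 → ℕ) : psum c 0 = c 0 := by
  unfold psum
  have : (Finset.univ.filter fun i : Fin 3 => i ≤ 0) = {0} := by decide
  rw [this]; simp

theorem psum1 (c : Fin 3 → ℕ) : psum c 1 = c 0 + c 1 := by
  unfold psum
  have : (Finset.univ.filter fun i : Fin 3 => i ≤ 1) = {0, 1} := by decide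
  rw [this]; simp

theorem psum2 (c : Fin 3 → ℕ) : psum c 2 = c 0 + c 1 + c 2 := by
  unfold psum
  have : (Finset.univ.filter fun i : Fin 3 => i ≤ 2) = {0, 1, 2} := by decide
  rw [this]; simp [add_assoc]

theorem domV_iff (c d : Fin 3 → ℕ) : DomV c d ↔
    d 0 ≤ c 0 ∧ d 0 + d 1 ≤ c 0 + c 1 ∧ d 0 + d 1 + d 2 ≤ c 0 + c 1 + c 2 := by
  unfold DomV
  rw [Fin.forall_fin_succ, Fin.forall_fin_two]
  show psum d 0 ≤ psum c 0 ∧ psum d 1 ≤ psum c 1 ∧ psum d 2 ≤ psum c 2 ↔ _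
  rw [psum0, psum0, psum1, psum1, psum2, psum2]

theorem dom_a (c : Fin 3 → ℕ) : DomV c ra ↔ 2 ≤ c 0 ∧ 2 ≤ c 0 + c 1 ∧ 3 ≤ c 0 + c 1 + c 2 := by
  rw [domV_iff]; simp [ra]

theorem dom_b (m : ℕ) (c : Fin 3 → ℕ) : DomV c (rb m) ↔
    1 ≤ c 0 ∧ 2 ≤ c 0 + c 1 ∧ 2 + m ≤ c 0 + c 1 + c 2 := by
  rw [domV_iff]; simp [rb]

theorem mem_rows {m : ℕ} {r : Fin 3 → ℕ} : r ∈ rows m ↔ r = ra ∨ r = rb m := by
  unfold rows; rw [Finset.mem_insert, Finset.mem_singleton]

theorem win_iff {m : ℕ} {S : Finset (Pl (bn m))} : rgame (bn m) (rows m) S ↔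
    DomV (cnt S) ra ∨ DomV (cnt S) (rb m) := by
  unfold rgame
  constructor
  · rintro ⟨r, hr, h⟩
    rw [mem_rows] at hr
    rcases hr with rfl | rfl
    · exact Or.inl h
    · exact Or.inr h
  · rintro (h | h)
    · exact ⟨_, mem_rows.mpr (Or.inl rfl), h⟩
    · exact ⟨_, mem_rows.mpr (Or.inr rfl), h⟩

theorem hn (m : ℕ) : ∀ k, 1 ≤ bn m k := by
  intro k; fin_cases k <;> simp [bn]

theorem hbox (m : ℕ) : ∀ r ∈ rows m, ∀ k, r k ≤ bn m k := by
  intro r hr k
  rw [mem_rows] at hr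
  rcases hr with rfl | rfl
  · fin_cases k <;> simp [bn, ra]
  · fin_cases k <;> simp [bn, rb]

theorem hanti {m : ℕ} (hm : 2 ≤ m) : ∀ r ∈ rows m, ∀ r' ∈ rows m, DomV r r' → r = r' := by
  intro r hr r' hr' h
  rw [mem_rows] at hr hr'
  rcases hr with rfl | rfl <;> rcases hr' with rfl | rfl
  · rfl
  · rw [dom_b] at h
    simp [ra] at h
    omega
  · rw [dom_a] at h
    simp [rb] at h
  · rfl

theorem hdist {m : ℕ} (hm : 2 ≤ m) : Distinct (bn m) (rows m) := by
  intro k l hkl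
  have hk : k.val = 0 ∨ k.val = 1 := by have := l.isLt; omega
  rcases hk with hk | hk
  · have hk' : k = 0 := Fin.ext hk
    have hl' : l = 1 := Fin.ext (by rw [hkl, hk]; rfl)
    subst hk'; subst hl'
    refine ⟨ra, hbox m _ (mem_rows.mpr (Or.inl rfl)), by simp [ra], by simp [ra, bn],
      ⟨ra, mem_rows.mpr (Or.inl rfl), DomV.refl _⟩, ?_⟩
    intro r hr
    rw [mem_rows] at hr
    rcases hr with rfl | rfl
    · rw [dom_a]; simp [ra]
    · rw [dom_b]; simp [ra]; omega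
  · have hk' : k = 1 := Fin.ext hk
    have hl' : l = 2 := Fin.ext (by rw [hkl, hk]; rfl)
    subst hk'; subst hl'
    refine ⟨rb m, hbox m _ (mem_rows.mpr (Or.inr rfl)), by simp [rb], by simp [rb, bn],
      ⟨rb m, mem_rows.mpr (Or.inr rfl), DomV.refl _⟩, ?_⟩
    intro r hr
    rw [mem_rows] at hr
    rcases hr with rfl | rfl
    · rw [dom_a]; simp [rb]
    · rw [dom_b]; simp [rb]

theorem base_simple (m : ℕ) : IsSimple (rgame (bn m) (rows m)) := by
  apply rgame_simple (hbox m) ⟨ra, mem_rows.mpr (Or.inl rfl)⟩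
  rw [mem_rows]
  rintro (h | h)
  · have := congrFun h 0; simp [ra] at this
  · have := congrFun h 0; simp [rb] at this

theorem base_single {m : ℕ} (hm : 2 ≤ m) (p : Pl (bn m)) : ¬ rgame (bn m) (rows m) {p} := by
  rw [win_iff, dom_a, dom_b]
  have h1 : ∀ k, cnt ({p} : Finset (Pl (bn m))) k = if p.1 = k then 1 else 0 := by
    intro k
    have := cnt_insert (S := (∅ : Finset (Pl (bn m)))) (x := p) (by simp) k
    rw [insert_empty_eq] at this
    rw [this]
    simp [cnt]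
  rw [h1, h1, h1]
  have h2 : ∀ k : Fin 3, (if k = 0 then 1 else 0) + (if k = 1 then 1 else 0) +
      (if k = 2 then 1 else 0) = 1 := by decide
  have := h2 p.1
  omega

theorem card_rows {m : ℕ} : #(rows m) = 2 := by
  unfold rows
  rw [Finset.card_pair]
  intro h
  have := congrFun h 0
  simp [ra, rb] at this

theorem base_robust {m : ℕ} (hm : 2 ≤ m) : InvTradeRobust m (rgame (bn m) (rows m)) := by
  intro j h1 hj X Y hT hX
  by_contra hcon
  push Not at hcon
  have hX' : ∀ i, cnt (X i) = ra ∨ cnt (X i) = rb m := by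
    intro i
    have := hX i
    rw [shiftMin_iff (hn m) (hdist hm) (hbox m) (hanti hm), mem_rows] at this
    exact this
  have hYb : ∀ i, cnt (Y i) 0 ≤ 2 ∧ cnt (Y i) 1 ≤ m + 1 ∧ cnt (Y i) 2 ≤ m + 1 := by
    intro i
    exact ⟨cnt_le (Y i) 0, cnt_le (Y i) 1, cnt_le (Y i) 2⟩
  have hYl : ∀ i, ¬ (2 ≤ cnt (Y i) 0 ∧ 2 ≤ cnt (Y i) 0 + cnt (Y i) 1 ∧
      3 ≤ cnt (Y i) 0 + cnt (Y i) 1 + cnt (Y i) 2) ∧
      ¬ (1 ≤ cnt (Y i) 0 ∧ 2 ≤ cnt (Y i) 0 + cnt (Y i) 1 ∧
      2 + m ≤ cnt (Y i) 0 + cnt (Y i) 1 + cnt (Y i) 2) := by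
    intro i
    have := hcon i
    rw [win_iff, dom_a, dom_b, not_or] at this
    exact this
  -- the linear functional
  have hxge : ∀ i, 2 * m + 2 ≤ (m + 1) * cnt (X i) 0 + cnt (X i) 1 + cnt (X i) 2 := by
    intro i
    rcases hX' i with h | h
    · rw [h]; simp [ra]; omega
    · rw [h]; simp [rb]; omega
  have hyle : ∀ i, (m + 1) * cnt (Y i) 0 + cnt (Y i) 1 + cnt (Y i) 2 ≤ 2 * m + 2 := by
    intro i
    have h2 := hYb i
    have h3 := hYl i
    rcases (by omega : cnt (Y i) 0 = 0 ∨ cnt (Y i) 0 = 1 ∨ cnt (Y i) 0 = 2) with h | h | h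
    · rw [h] at h3 ⊢; omega
    · rw [h] at h3 ⊢; omega
    · rw [h] at h3 ⊢; omega
  have hsum : ∑ i, ((m + 1) * cnt (X i) 0 + cnt (X i) 1 + cnt (X i) 2) =
      ∑ i, ((m + 1) * cnt (Y i) 0 + cnt (Y i) 1 + cnt (Y i) 2) := by
    simp_rw [Finset.sum_add_distrib, ← Finset.mul_sum]
    rw [trade_cnt hT, trade_cnt hT, trade_cnt hT]
  have hXs : ∑ i, ((m + 1) * cnt (X i) 0 + cnt (X i) 1 + cnt (X i) 2) =
      ∑ _i : Fin j, (2 * m + 2) := by
    apply le_antisymm
    · rw [hsum]; exact Finset.sum_le_sum fun i _ => hyle i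
    · exact Finset.sum_le_sum fun i _ => hxge i
  have hYs := hsum ▸ hXs
  have hXe : ∀ i, cnt (X i) = rb m := by
    intro i
    have h2 := (Finset.sum_eq_sum_iff_of_le (fun i _ => hxge i)).mp hXs.symm i
      (Finset.mem_univ i)
    rcases hX' i with h | h
    · exfalso
      rw [h] at h2
      simp [ra] at h2
      omega
    · exact h
  have hYe : ∀ i, (m + 1) ∣ cnt (Y i) 1 := by
    intro i
    have h2 := (Finset.sum_eq_sum_iff_of_le (fun i _ => hyle i)).mp hYs i (Finset.mem_univ i)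
    have h3 := hYb i
    have h4 := hYl i
    rcases (by omega : cnt (Y i) 0 = 0 ∨ cnt (Y i) 0 = 1 ∨ cnt (Y i) 0 = 2) with h | h | h
    · rw [h] at h2
      have : cnt (Y i) 1 = m + 1 := by omega
      rw [this]
    · rw [h] at h2 h4
      have : cnt (Y i) 1 = 0 := by omega
      rw [this]; exact dvd_zero _
    · rw [h] at h2 h4
      have : cnt (Y i) 1 = 0 := by omega
      rw [this]; exact dvd_zero _
  have h5 : (m + 1) ∣ j := by
    have h6 : ∑ i, cnt (X i) 1 = j := by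
      simp_rw [hXe]
      simp [rb]
    rw [← h6, trade_cnt hT]
    exact Finset.dvd_sum fun i _ => hYe i
  have := Nat.le_of_dvd (by omega) h5
  omega

theorem base_not_robust {m : ℕ} (hm : 2 ≤ m) :
    ¬ InvTradeRobust (m + 1) (rgame (bn m) (rows m)) := by
  intro hrob
  obtain ⟨m', rfl⟩ : ∃ m', m = m' + 1 := ⟨m - 1, by omega⟩
  let d : Fin (m' + 1 + 1) → Fin 3 → ℕ := fun i =>
    if i.val = 0 then ![2, 0, 0] else if i.val = 1 then ![0, m' + 1 + 1, m' + 1 + 1] else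
      ![1, 0, m' + 1 + 1]
  have hd0 : d 0 = ![2, 0, 0] := rfl
  have hd1 : d (Fin.succ 0) = ![0, m' + 1 + 1, m' + 1 + 1] := rfl
  have hd2 : ∀ i : Fin m', d i.succ.succ = ![1, 0, m' + 1 + 1] := by
    intro i
    show (if i.val + 1 + 1 = 0 then _ else if i.val + 1 + 1 = 1 then _ else _) = _
    rw [if_neg (by omega), if_neg (by omega)]
  obtain ⟨X, Y, hT, hX, hY⟩ := exists_trade (n := bn (m' + 1)) (j := m' + 1 + 1)
    (fun _ => rb (m' + 1)) d
    (fun i k => hbox _ _ (mem_rows.mpr (Or.inr rfl)) k) (by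
      intro i k
      show (if i.val = 0 then _ else if i.val = 1 then _ else _ : Fin 3 → ℕ) k ≤ _
      split_ifs <;> fin_cases k <;> simp [bn]) (by
      intro k
      have hs : ∑ i, d i k = d 0 k + (d (Fin.succ 0) k + ∑ i : Fin m', d i.succ.succ k) := by
        rw [Fin.sum_univ_succ, Fin.sum_univ_succ]
      rw [hs, hd0, hd1]
      simp_rw [hd2]
      fin_cases k
      · simp [rb]; ring
      · simp [rb]
      · simp [rb]; ring)
  obtain ⟨i, hi⟩ := hrob (m' + 1 + 1) (by omega) le_rfl X Y hT (by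
    intro i
    rw [shiftMin_iff (hn _) (hdist hm) (hbox _) (hanti hm), hX, mem_rows]
    exact Or.inr rfl)
  rw [win_iff, hY, dom_a, dom_b] at hi
  have : d i = ![2, 0, 0] ∨ d i = ![0, m' + 1 + 1, m' + 1 + 1] ∨ d i = ![1, 0, m' + 1 + 1] := by
    show (if i.val = 0 then _ else if i.val = 1 then _ else _ : Fin 3 → ℕ) = _ ∨
      (if i.val = 0 then _ else if i.val = 1 then _ else _ : Fin 3 → ℕ) = _ ∨
      (if i.val = 0 then _ else if i.val = 1 then _ else _ : Fin 3 → ℕ) = _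
    split_ifs <;> simp
  rcases this with h | h | h
  · rw [h] at hi; simp at hi
  · rw [h] at hi; simp at hi
  · rw [h] at hi; simp at hi

/-- **Q1 of MP_0d0d23_co (proved, for all `r ≥ 2` and `m ≥ 2`).** -/
theorem result : ∀ m : ℕ, 2 ≤ m → ∀ r : ℕ, 2 ≤ r →
    ∃ (N : Type) (_ : Fintype N) (_ : DecidableEq N) (W : Finset N → Prop),
      IsSimple W ∧ Complete W ∧ numShiftMin W = r ∧ InvTradeRobust m W ∧
        ¬ InvTradeRobust (m + 1) W := by
  intro m hm r hr
  have key : ∀ k : ℕ, ∃ (N : Type) (_ : Fintype N) (_ : DecidableEq N) (W : Finset N → Prop),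
      IsSimple W ∧ Complete W ∧ (∀ p, ¬ W {p}) ∧ numShiftMin W = k + 2 ∧ InvTradeRobust m W ∧
        ¬ InvTradeRobust (m + 1) W := by
    intro k
    induction k with
    | zero =>
      exact ⟨Pl (bn m), inferInstance, inferInstance, rgame (bn m) (rows m), base_simple m,
        rgame_complete, base_single hm,
        by rw [rgame_numShiftMin (hn m) (hdist hm) (hbox m) (hanti hm), card_rows],
        base_robust hm, base_not_robust hm⟩
    | succ k ih =>
      obtain ⟨N, i1, i2, W, h1, h2, h3, h4, h5, h6⟩ := ih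
      refine ⟨Bool ⊕ N, inferInstance, inferInstance, ext W, ext_simple h1,
        ext_complete h1 h3 h2, ext_single h1, ?_, ?_, ?_⟩
      · rw [ext_numShiftMin h1 h3 h2, h4]
      · rw [ext_invTradeRobust h1 h3]; exact h5
      · rw [ext_invTradeRobust h1 h3]; exact h6
  obtain ⟨N, i1, i2, W, h1, h2, h3, h4, h5, h6⟩ := key (r - 2)
  exact ⟨N, i1, i2, W, h1, h2, by rw [h4]; omega, h5, h6⟩

end Pool.Agent.Results.MP_0d0d23_co.AllRows
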